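import Mathlib

set_option autoImplicit false

open Finset Polynomial

namespace Pool.Agent.U829.IR

variable {K : Type} [Field K]

/-- a polynomial with too many multiple zeros vanishes -/
lemma zero_of_pow_dvd (P : K[X]) (Z : Finset K) (e : ℕ) (h : ∀ z ∈ Z, (X - C z) ^ e ∣ P)
    (hd : P.natDegree < Z.card * e) : P = 0 := by
  have h1 : ∏ z ∈ Z, (X - C z) ^ e ∣ P := by
    refine Finset.prod_dvd_of_coprime ?_ h
    intro a _ b _ hab
    exact (pairwise_coprime_X_sub_C (K := K) (s := fun z : K => z)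
      (fun _ _ h => h) hab).pow
  refine eq_zero_of_dvd_of_natDegree_lt h1 ?_
  rw [natDegree_prod_of_monic]
  · simpa using hd
  · intro z _
    exact (monic_X_sub_C z).pow _

lemma pow_dvd_of_derivs (P : K[X]) (z : K) (e : ℕ) (hf : (((e - 1).factorial : ℕ) : K) ≠ 0)
    (h : ∀ a < e, eval z (derivative^[a] P) = 0) : (X - C z) ^ e ∣ P := by
  rcases Nat.eq_zero_or_pos e with rfl | he
  · simp
  by_cases hP : P = 0
  · rw [hP]; exact dvd_zero _
  have h1 : e - 1 < P.rootMultiplicity z := by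
    refine lt_rootMultiplicity_of_isRoot_iterate_derivative_of_mem_nonZeroDivisors hP ?_ ?_
    · intro m hm
      exact h m (by omega)
    · exact mem_nonZeroDivisors_of_ne_zero hf
  exact (le_rootMultiplicity_iff hP).1 (by omega)

lemma fact_ne_of_le {N k : ℕ} (hN : ((N.factorial : ℕ) : K) ≠ 0) (hk : k ≤ N) :
    ((k.factorial : ℕ) : K) ≠ 0 := by
  intro h
  apply hN
  obtain ⟨c, hc⟩ := Nat.factorial_dvd_factorial hk
  rw [hc, Nat.cast_mul, h, zero_mul]

lemma natCast_ne_of_le {N k : ℕ} (hN : ((N.factorial : ℕ) : K) ≠ 0) (hk : k ≤ N) (h0 : 0 < k) :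
    ((k : ℕ) : K) ≠ 0 := by
  intro h
  apply fact_ne_of_le hN hk
  obtain ⟨c, hc⟩ := Nat.dvd_factorial h0 le_rfl
  rw [hc, Nat.cast_mul, h, zero_mul]

lemma natCast_inj {N i j : ℕ} (hN : ((N.factorial : ℕ) : K) ≠ 0) (hi : i ≤ N) (hj : j ≤ N)
    (h : (i : K) = (j : K)) : i = j := by
  rcases lt_trichotomy i j with h1 | h1 | h1
  · exfalso
    refine natCast_ne_of_le hN (k := j - i) (by omega) (by omega) ?_
    rw [Nat.cast_sub h1.le, h, sub_self]
  · exact h1
  · exfalso
    refine natCast_ne_of_le hN (k := i - j) (by omega) (by omega) ?_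
    rw [Nat.cast_sub h1.le, h, sub_self]

/-- the nodes `j w`, `j ≤ M` -/
noncomputable def nodes (M : ℕ) (x w : K) : Finset K :=
  by classical exact (range (M + 1)).image (fun j : ℕ => x + (j : K) * w)

lemma card_nodes {N M : ℕ} (hN : ((N.factorial : ℕ) : K) ≠ 0) (hM : M ≤ N) (x w : K) (hw : w ≠ 0) :
    (nodes M x w).card = M + 1 := by
  classical
  unfold nodes
  rw [Finset.card_image_of_injOn, card_range]
  intro i hi j hj hij
  rw [Finset.coe_range, Set.mem_Iio] at hi hj
  have h1 : (i : K) = (j : K) := mul_right_cancel₀ hw (add_left_cancel hij)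
  exact natCast_inj hN (by omega) (by omega) h1

lemma mem_nodes {M : ℕ} {x w z : K} : z ∈ nodes M x w ↔ ∃ j ≤ M, z = x + (j : K) * w := by
  classical
  unfold nodes
  simp only [mem_image, mem_range]
  constructor
  · rintro ⟨j, hj, rfl⟩
    exact ⟨j, by omega, rfl⟩
  · rintro ⟨j, hj, rfl⟩
    exact ⟨j, by omega, rfl⟩

/-- a polynomial of degree at most `N` with all derivatives up to order `N` zero at `z` vanishes -/
lemma zero_of_all_derivs {N : ℕ} (hN : ((N.factorial : ℕ) : K) ≠ 0) (P : K[X]) (z : K)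
    (hd : P.natDegree ≤ N) (h : ∀ a, eval z (derivative^[a] P) = 0) : P = 0 := by
  have h1 : (X - C z) ^ (N + 1) ∣ P :=
    pow_dvd_of_derivs P z (N + 1) (by simpa using hN) (fun a _ => h a)
  refine eq_zero_of_dvd_of_natDegree_lt h1 ?_
  rw [natDegree_pow, natDegree_X_sub_C]
  omega

/-- duality: a jet vector orthogonal to all functionals vanishing on jets of polynomials of
degree at most `N` is the jet of such a polynomial -/
lemma exists_poly_of_jets (N : ℕ) (ι : Type) [Fintype ι] [DecidableEq ι] (nd : ι → K) (od : ι → ℕ)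
    (v : ι → K)
    (h : ∀ μ : ι → K, (∀ f : K[X], f.natDegree ≤ N →
        ∑ i, μ i * eval (nd i) (derivative^[od i] f) = 0) → ∑ i, μ i * v i = 0) :
    ∃ H : K[X], H.natDegree ≤ N ∧ ∀ i, eval (nd i) (derivative^[od i] H) = v i := by
  let J : K[X] →ₗ[K] (ι → K) :=
    LinearMap.pi (fun i => (leval (nd i)).comp ((derivative (R := K)) ^ (od i)))
  have hJ : ∀ f i, J f i = eval (nd i) (derivative^[od i] f) := by
    intro f i
    simp only [J, LinearMap.pi_apply, LinearMap.comp_apply, leval_apply, Module.End.pow_apply]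
  by_contra hcon
  push Not at hcon
  have hv : v ∉ (degreeLE K N).map J := by
    rintro ⟨H, hH, hHv⟩
    rw [SetLike.mem_coe, mem_degreeLE] at hH
    obtain ⟨i, hi⟩ := hcon H (natDegree_le_of_degree_le hH)
    exact hi (by rw [← hJ, hHv])
  obtain ⟨φ, h1, h2⟩ := Submodule.exists_le_ker_of_notMem hv
  apply h1
  have hφ : ∀ u : ι → K, φ u = ∑ i, φ (Pi.single i 1) * u i := by
    intro u
    rw [LinearMap.pi_apply_eq_sum_univ φ u]
    refine Finset.sum_congr rfl (fun i _ => ?_)
    rw [smul_eq_mul, mul_comm]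
    congr 2
    funext j
    rw [Pi.single_apply]
    by_cases hij : j = i
    · simp [hij]
    · rw [if_neg hij, if_neg (fun h => hij h.symm)]
  rw [hφ v]
  refine h (fun i => φ (Pi.single i 1)) (fun f hf => ?_)
  have h3 : φ (J f) = 0 := by
    have : J f ∈ (degreeLE K N).map J :=
      Submodule.mem_map_of_mem (mem_degreeLE.2 (degree_le_of_natDegree_le hf))
    exact h2 this
  rw [hφ] at h3
  simpa only [hJ] using h3

end Pool.Agent.U829.IR
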