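import Mathlib
import Pool.Agent.U829.IR.Jet

set_option autoImplicit false

open Finset Polynomial

namespace Pool.Agent.U829.IR

variable {K : Type} [Field K]

/-- Hermite uniqueness at the nodes `j w`, `j ≤ M` -/
lemma hermite_unique {N e M : ℕ} (hN1 : N + 1 = (M + 1) * e) (hf : ((N.factorial : ℕ) : K) ≠ 0)
    (w : K) (hw : w ≠ 0) (P : K[X]) (hP : P.natDegree ≤ N)
    (h : ∀ j ≤ M, ∀ a < e, eval ((j : K) * w) (derivative^[a] P) = 0) : P = 0 := by
  have he : 1 ≤ e := by
    rcases Nat.eq_zero_or_pos e with rfl | he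
    · simp at hN1
    · exact he
  have hMN : M ≤ N := by nlinarith
  have heN : e - 1 ≤ N := by
    have : e ≤ (M + 1) * e := Nat.le_mul_of_pos_left e (by omega)
    omega
  refine zero_of_pow_dvd P (nodes M 0 w) e ?_ ?_
  · intro z hz
    obtain ⟨j, hj, rfl⟩ := mem_nodes.1 hz
    rw [zero_add]
    exact pow_dvd_of_derivs P _ e (fact_ne_of_le hf heN) (h j hj)
  · rw [card_nodes hf hMN 0 w hw, ← hN1]
    omega

/-- Lemma A: if all the shifted jet vectors of the `ξ_j` at the nodes `j w` are jets of polynomials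
of degree at most `N` then the `ξ_j` are equal -/
lemma all_equal {N e M : ℕ} (hN1 : N + 1 = (M + 1) * e) (hf : ((N.factorial : ℕ) : K) ≠ 0)
    (w : K) (hw : w ≠ 0) (ξ : ℕ → K[X]) (hξ : ∀ j ≤ M, (ξ j).natDegree ≤ N)
    (H : ℕ → K[X]) (hH : ∀ m, (H m).natDegree ≤ N)
    (h : ∀ m, ∀ j ≤ M, ∀ a ≤ e, eval ((j : K) * w) (derivative^[a] (H m)) =
      eval ((j : K) * w) (derivative^[a + m] (ξ j))) : ∀ j ≤ M, ξ j = H 0 := by
  have h1 : ∀ m, derivative (H m) = H (m + 1) := by
    intro m
    rw [← sub_eq_zero]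
    refine hermite_unique hN1 hf w hw _ ?_ ?_
    · refine (natDegree_sub_le _ _).trans (max_le ?_ (hH _))
      exact (natDegree_derivative_le _).trans ((Nat.sub_le _ _).trans (hH _))
    · intro j hj a ha
      rw [iterate_derivative_sub, eval_sub, h (m + 1) j hj a ha.le,
        ← Function.iterate_succ_apply, h m j hj (a + 1) (by omega)]
      rw [show a + 1 + m = a + (m + 1) by ring, sub_self]
  have h2 : ∀ m, derivative^[m] (H 0) = H m := by
    intro m
    induction m with
    | zero => rfl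
    | succ m ih => rw [Function.iterate_succ_apply', ih, h1]
  intro j hj
  rw [← sub_eq_zero]
  refine zero_of_all_derivs hf _ ((j : K) * w) ?_ ?_
  · exact (natDegree_sub_le _ _).trans (max_le (hξ j hj) (hH 0))
  · intro a
    rw [iterate_derivative_sub, eval_sub, h2]
    have := h a j hj 0 (Nat.zero_le _)
    rw [Function.iterate_zero, id_eq, zero_add] at this
    rw [this, sub_self]

/-- membership in the box `x + ∑ j_k w_k`, `0 ≤ j_k ≤ M` -/
def InBox (M : ℕ) : List K → K → K → Prop
  | [], x, y => y = x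
  | (w :: l), x, y => ∃ j ≤ M, ∃ z, InBox M l x z ∧ y = z + (j : K) * w

/-- the mixed differences of `τ` in the directions of the list vanish -/
def Sep (M : ℕ) : List K → K → (K → K[X]) → Prop
  | [], x, τ => τ x = 0
  | (w :: l), x, τ => ∀ j ≤ M, Sep M l x (fun y => τ (y + (j : K) * w) - τ y)

lemma Sep_zero_on {M : ℕ} : ∀ (l : List K) (x : K) (τ : K → K[X]),
    (∀ y, InBox M l x y → τ y = 0) → Sep M l x τ
  | [], x, τ, h => h x rfl
  | (w :: l), x, τ, h => by
    intro j hj
    refine Sep_zero_on l x _ ?_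
    intro y hy
    have h1 : InBox M (w :: l) x (y + (j : K) * w) := ⟨j, hj, y, hy, rfl⟩
    have h2 : InBox M (w :: l) x y := ⟨0, Nat.zero_le _, y, hy, by simp⟩
    simp only [h _ h1, h _ h2, sub_zero]

lemma Sep_add {M : ℕ} : ∀ (l : List K) (x : K) (τ σ : K → K[X]),
    Sep M l x τ → Sep M l x σ → Sep M l x (fun y => τ y + σ y)
  | [], x, τ, σ, h1, h2 => by
    change τ x = 0 at h1
    change σ x = 0 at h2
    change τ x + σ x = 0
    rw [h1, h2, add_zero]
  | (w :: l), x, τ, σ, h1, h2 => by
    intro j hj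
    have := Sep_add l x _ _ (h1 j hj) (h2 j hj)
    convert this using 2
    ring

lemma Sep_congr {M : ℕ} (l : List K) (x : K) (τ σ : K → K[X])
    (h : ∀ y, InBox M l x y → τ y = σ y) (h1 : Sep M l x σ) : Sep M l x τ := by
  have h2 : Sep M l x (fun y => τ y - σ y) :=
    Sep_zero_on l x _ (fun y hy => by rw [h y hy, sub_self])
  have h3 := Sep_add l x _ _ h2 h1
  convert h3 using 2
  ring

lemma Sep_map {M : ℕ} (O : K[X] →ₗ[K] K[X]) : ∀ (l : List K) (x : K) (τ : K → K[X]),
    Sep M l x τ → Sep M l x (fun y => O (τ y))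
  | [], x, τ, h => by
    change τ x = 0 at h
    change O (τ x) = 0
    rw [h, map_zero]
  | (w :: l), x, τ, h => by
    intro j hj
    have := Sep_map O l x _ (h j hj)
    convert this using 2
    rw [map_sub]

lemma Sep_sum {M : ℕ} {ι : Type} (s : Finset ι) (l : List K) (x : K) (τ : ι → K → K[X])
    (h : ∀ i ∈ s, Sep M l x (τ i)) : Sep M l x (fun y => ∑ i ∈ s, τ i y) := by
  classical
  induction s using Finset.induction_on with
  | empty => exact Sep_zero_on l x _ (fun y _ => by simp)
  | insert a s ha ih =>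
    have h1 := Sep_add l x _ _ (h a (mem_insert_self _ _)) (ih (fun i hi => h i (mem_insert_of_mem hi)))
    convert h1 using 2
    rw [sum_insert ha]

/-- the operator `f ↦ ∑_a μ_a f^(a) (X + c)` -/
noncomputable def Op (e : ℕ) (μ : Fin (e + 1) → K) (c : K) : K[X] →ₗ[K] K[X] :=
  (∑ a : Fin (e + 1), μ a • ((derivative (R := K)) ^ (a : ℕ))) |> fun D =>
    (taylor c : K[X] →ₗ[K] K[X]).comp D

lemma Op_apply (e : ℕ) (μ : Fin (e + 1) → K) (c : K) (f : K[X]) :
    Op e μ c f = ∑ a : Fin (e + 1), μ a • taylor c (derivative^[(a : ℕ)] f) := by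
  unfold Op
  simp only [LinearMap.comp_apply, LinearMap.sum_apply, LinearMap.smul_apply, map_sum, map_smul,
    Module.End.pow_apply]

lemma derivative_taylor (c : K) (f : K[X]) : derivative (taylor c f) = taylor c (derivative f) := by
  rw [taylor_apply, taylor_apply, derivative_comp]
  simp

lemma iterate_derivative_taylor (c : K) (f : K[X]) (m : ℕ) :
    derivative^[m] (taylor c f) = taylor c (derivative^[m] f) := by
  induction m with
  | zero => rfl
  | succ m ih => rw [Function.iterate_succ_apply', ih, derivative_taylor, Function.iterate_succ_apply']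

lemma Op_deriv (e : ℕ) (μ : Fin (e + 1) → K) (c : K) (f : K[X]) (m : ℕ) :
    derivative^[m] (Op e μ c f) = Op e μ c (derivative^[m] f) := by
  rw [Op_apply, Op_apply, iterate_derivative_sum]
  refine Finset.sum_congr rfl (fun a _ => ?_)
  rw [iterate_derivative_smul, iterate_derivative_taylor, ← Function.iterate_add_apply,
    ← Function.iterate_add_apply, add_comm]

lemma Op_eval_zero (e : ℕ) (μ : Fin (e + 1) → K) (c : K) (f : K[X]) :
    eval 0 (Op e μ c f) = ∑ a : Fin (e + 1), μ a * eval c (derivative^[(a : ℕ)] f) := by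
  rw [Op_apply, eval_finsetSum]
  refine Finset.sum_congr rfl (fun a _ => ?_)
  rw [eval_smul, smul_eq_mul, taylor_eval, zero_add]

lemma Op_natDegree (e : ℕ) (μ : Fin (e + 1) → K) (c : K) (f : K[X]) (N : ℕ) (hf : f.natDegree ≤ N) :
    (Op e μ c f).natDegree ≤ N := by
  rw [Op_apply]
  refine natDegree_sum_le_of_forall_le _ _ (fun a _ => ?_)
  refine (natDegree_smul_le _ _).trans ?_
  rw [natDegree_taylor]
  exact (natDegree_iterate_derivative _ _).trans ((Nat.sub_le _ _).trans hf)

lemma Op_dvd (e : ℕ) (μ : Fin (e + 1) → K) (c y : K) (f : K[X]) (J : ℕ)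
    (hf : (X - C (y + c)) ^ J ∣ f) : (X - C y) ^ (J - e) ∣ Op e μ c f := by
  rw [Op_apply]
  refine Finset.dvd_sum (fun a _ => ?_)
  rw [smul_eq_C_mul]
  refine Dvd.dvd.mul_left ?_ _
  have h1 : (X - C (y + c)) ^ (J - a) ∣ derivative^[(a : ℕ)] f :=
    pow_sub_dvd_iterate_derivative_of_pow_dvd _ hf
  obtain ⟨g, hg⟩ := h1
  rw [hg, taylor_mul]
  refine Dvd.dvd.mul_right ?_ _
  have h2 : taylor c ((X - C (y + c)) ^ (J - (a : ℕ))) = (X - C y) ^ (J - (a : ℕ)) := by
    rw [taylor_apply, pow_comp, sub_comp, X_comp, C_comp, C_add]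
    ring
  rw [h2]
  exact pow_dvd_pow _ (by omega)

/-- The interpolation theorem. -/
theorem interp {N e M : ℕ} (hN1 : N + 1 = (M + 1) * e) (hf : ((N.factorial : ℕ) : K) ≠ 0) :
    ∀ (l : List K), (∀ w ∈ l, w ≠ 0) → ∀ (J : ℕ) (τ : K → K[X]) (x : K), l.length * e ≤ J →
      (∀ y, InBox M l x y → (τ y).natDegree ≤ N) →
      (∀ y, InBox M l x y → (X - C y) ^ J ∣ τ y) → Sep M l x τ →
      ∀ y, InBox M l x y → τ y = 0
  | [], _, J, τ, x, _, _, _, hs, y, hy => by
    change y = x at hy
    rw [hy]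
    exact hs
  | (w :: l), hl, J, τ, x, hJ, hdeg, hdvd, hs, y, hy => by
    have he : 1 ≤ e := by
      rcases Nat.eq_zero_or_pos e with rfl | he
      · simp at hN1
      · exact he
    have hMN : M ≤ N := by nlinarith
    have hw : w ≠ 0 := hl w (by simp)
    rw [List.length_cons, Nat.add_mul, one_mul] at hJ
    -- the flows annihilate
    have key : ∀ z, InBox M l x z → ∀ μ : Fin (M + 1) × Fin (e + 1) → K,
        (∀ f : K[X], f.natDegree ≤ N → ∑ i, μ i * eval (((i.1 : ℕ) : K) * w)
          (derivative^[(i.2 : ℕ)] f) = 0) →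
        ∑ j : Fin (M + 1), Op e (fun a => μ (j, a)) (((j : ℕ) : K) * w)
          (τ (z + ((j : ℕ) : K) * w)) = 0 := by
      intro z hz μ hμ
      set σ : K → K[X] := fun z => ∑ j : Fin (M + 1), Op e (fun a => μ (j, a)) (((j : ℕ) : K) * w)
          (τ (z + ((j : ℕ) : K) * w)) with hσ
      have hbox : ∀ z, InBox M l x z → ∀ j : Fin (M + 1),
          InBox M (w :: l) x (z + ((j : ℕ) : K) * w) :=
        fun z hz j => ⟨j, Nat.lt_succ_iff.1 j.2, z, hz, rfl⟩
      have hbox0 : ∀ z, InBox M l x z → InBox M (w :: l) x z :=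
        fun z hz => ⟨0, Nat.zero_le _, z, hz, by simp⟩
      -- operators sum to zero
      have hsum : ∀ f : K[X], f.natDegree ≤ N →
          ∑ j : Fin (M + 1), Op e (fun a => μ (j, a)) (((j : ℕ) : K) * w) f = 0 := by
        intro f hfN
        refine zero_of_all_derivs hf _ 0 ?_ ?_
        · exact natDegree_sum_le_of_forall_le _ _ (fun j _ => Op_natDegree _ _ _ _ _ hfN)
        · intro m
          rw [iterate_derivative_sum, eval_finsetSum]
          simp only [Op_deriv, Op_eval_zero]
          have := hμ (derivative^[m] f)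
            ((natDegree_iterate_derivative _ _).trans ((Nat.sub_le _ _).trans hfN))
          rw [← this, Fintype.sum_prod_type]
      refine interp hN1 hf l (fun w' hw' => hl w' (by simp [hw'])) (J - e) σ x (by omega) ?_ ?_ ?_
        z hz
      · intro u hu
        exact natDegree_sum_le_of_forall_le _ _
          (fun j _ => Op_natDegree _ _ _ _ _ (hdeg _ (hbox u hu j)))
      · intro u hu
        refine Finset.dvd_sum (fun j _ => ?_)
        exact Op_dvd e _ _ _ _ J (hdvd _ (hbox u hu j))
      · refine Sep_congr l x σ (fun u => ∑ j : Fin (M + 1), Op e (fun a => μ (j, a))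
          (((j : ℕ) : K) * w) (τ (u + ((j : ℕ) : K) * w) - τ u)) ?_ ?_
        · intro u hu
          simp only [map_sub, sum_sub_distrib]
          rw [hsum (τ u) (hdeg _ (hbox0 u hu)), sub_zero]
        · refine Sep_sum _ l x _ (fun j _ => ?_)
          exact Sep_map _ l x _ (hs j (Nat.lt_succ_iff.1 j.2))
    -- all equal
    have heq : ∀ z, InBox M l x z → ∀ j ≤ M, τ (z + (j : K) * w) = τ z := by
      intro z hz
      have hex : ∀ m : ℕ, ∃ H : K[X], H.natDegree ≤ N ∧ ∀ j ≤ M, ∀ a ≤ e,
          eval ((j : K) * w) (derivative^[a] H) =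
            eval ((j : K) * w) (derivative^[a + m] (τ (z + (j : K) * w))) := by
        intro m
        obtain ⟨H, h1, h2⟩ := exists_poly_of_jets N (Fin (M + 1) × Fin (e + 1))
          (fun i => ((i.1 : ℕ) : K) * w) (fun i => (i.2 : ℕ))
          (fun i => eval (((i.1 : ℕ) : K) * w)
            (derivative^[(i.2 : ℕ) + m] (τ (z + ((i.1 : ℕ) : K) * w)))) (by
          intro μ hμ
          have h3 := key z hz μ hμ
          have h4 := congrArg (fun P => eval 0 (derivative^[m] P)) h3
          simp only [iterate_derivative_sum, eval_finsetSum, Op_deriv, Op_eval_zero,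
            iterate_derivative_zero, eval_zero] at h4
          rw [Fintype.sum_prod_type, ← h4]
          refine Finset.sum_congr rfl (fun j _ => Finset.sum_congr rfl (fun a _ => ?_))
          rw [← Function.iterate_add_apply])
        refine ⟨H, h1, fun j hj a ha => ?_⟩
        exact h2 (⟨j, by omega⟩, ⟨a, by omega⟩)
      choose H hH1 hH2 using hex
      have h5 := all_equal hN1 hf w hw (fun j => τ (z + (j : K) * w))
        (fun j hj => hdeg _ ⟨j, hj, z, hz, rfl⟩) H hH1 (fun m j hj a ha => hH2 m j hj a ha)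
      intro j hj
      have h6 := h5 j hj
      have h7 := h5 0 (Nat.zero_le _)
      simp only [Nat.cast_zero, zero_mul, add_zero] at h7
      rw [h6, h7]
    obtain ⟨j, hj, z, hz, rfl⟩ := hy
    rw [heq z hz j hj]
    refine zero_of_pow_dvd (τ z) (nodes M z w) J ?_ ?_
    · intro u hu
      obtain ⟨i, hi, rfl⟩ := mem_nodes.1 hu
      rw [← heq z hz i hi]
      exact hdvd _ ⟨i, hi, z, hz, rfl⟩
    · rw [card_nodes hf hMN z w hw]
      have h8 : (τ z).natDegree ≤ N := hdeg z ⟨0, Nat.zero_le _, z, hz, by simp⟩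
      have h9 : (M + 1) * e ≤ (M + 1) * J := Nat.mul_le_mul_left _ (by omega)
      omega

end Pool.Agent.U829.IR
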