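import Mathlib
import Pool.Agent.H332R2.CastLem
import Pool.Agent.U829.IR.Interp

set_option autoImplicit false

open Finset Polynomial

namespace Pool.Agent.U829.IR

variable {K : Type} [Field K]

lemma InBox_self {M : ℕ} : ∀ (l : List K) (x : K), InBox M l x x
  | [], x => rfl
  | (w :: l), x => ⟨0, Nat.zero_le _, x, InBox_self l x, by simp⟩

/-- a function invariant under one of the directions is separated -/
lemma Sep_inv {M : ℕ} : ∀ (l : List K) (x : K) (ξ : K → K[X]) (w : K), w ∈ l →
    (∀ y, InBox M l x y → ξ (y + w) = ξ y) → Sep M l x ξ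
  | [], x, ξ, w, hw, h => by simp at hw
  | (v :: l), x, ξ, w, hw, h => by
    intro j hj
    rcases List.mem_cons.1 hw with h1 | h1
    · subst h1
      refine Sep_zero_on l x _ (fun y hy => ?_)
      have h2 : ∀ i ≤ M, ξ (y + (i : K) * w) = ξ y := by
        intro i
        induction i with
        | zero => intro _; simp
        | succ i ih =>
          intro hi
          have h3 := h (y + (i : K) * w) ⟨i, by omega, y, hy, rfl⟩
          rw [ih (by omega)] at h3
          rw [← h3]
          congr 1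
          push_cast
          ring
      simp only [h2 j hj, sub_self]
    · refine Sep_inv l x _ w h1 (fun y hy => ?_)
      have h3 := h (y + (j : K) * v) ⟨j, hj, y, hy, rfl⟩
      have h4 := h y ⟨0, Nat.zero_le _, y, hy, by simp⟩
      rw [h4, ← h3]
      congr 2
      ring

/-- the polynomial `s ↦ T ((X - s) ^ N)` -/
noncomputable def pol (N : ℕ) (T : K[X] →ₗ[K] K) : K[X] :=
  ∑ l ∈ range (N + 1), C ((N.choose l : K) * (-1) ^ l * T (X ^ (N - l))) * X ^ l

lemma eval_pol (N : ℕ) (T : K[X] →ₗ[K] K) (s : K) : eval s (pol N T) = T ((X - C s) ^ N) := by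
  unfold pol
  have e : (X - C s : K[X]) = C (-s) + X := by rw [C_neg]; ring
  rw [eval_finsetSum, e, add_pow, map_sum]
  refine Finset.sum_congr rfl (fun l hl => ?_)
  rw [eval_mul, eval_C, eval_pow, eval_X, ← C_pow]
  have : C ((-s) ^ l) * X ^ (N - l) * ((N.choose l : ℕ) : K[X]) =
      ((-s) ^ l * (N.choose l : K)) • X ^ (N - l) := by
    rw [smul_eq_C_mul, C_mul, C_eq_natCast]
    ring
  rw [this, map_smul, smul_eq_mul, neg_pow]
  ring

lemma natDegree_pol (N : ℕ) (T : K[X] →ₗ[K] K) : (pol N T).natDegree ≤ N := by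
  unfold pol
  refine natDegree_sum_le_of_forall_le _ _ (fun l hl => ?_)
  rw [mem_range] at hl
  exact (natDegree_C_mul_X_pow_le _ _).trans (by omega)

lemma pol_congr (N : ℕ) (T T' : K[X] →ₗ[K] K) (h : ∀ k ≤ N, T (X ^ k) = T' (X ^ k)) :
    pol N T = pol N T' := by
  unfold pol
  refine Finset.sum_congr rfl (fun l _ => ?_)
  rw [h (N - l) (Nat.sub_le _ _)]

lemma pol_sum {ι : Type} (N : ℕ) (s : Finset ι) (c : ι → K) (T : ι → K[X] →ₗ[K] K) :
    pol N (∑ i ∈ s, c i • T i) = ∑ i ∈ s, c i • pol N (T i) := by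
  unfold pol
  simp only [LinearMap.sum_apply, LinearMap.smul_apply, smul_sum]
  rw [Finset.sum_comm]
  refine Finset.sum_congr rfl (fun l _ => ?_)
  rw [Finset.mul_sum, map_sum, Finset.sum_mul]
  refine Finset.sum_congr rfl (fun i _ => ?_)
  rw [smul_eq_mul, smul_eq_C_mul]
  simp only [map_mul]
  ring

lemma pol_zero {N : ℕ} (hf : ((N.factorial : ℕ) : K) ≠ 0) (T : K[X] →ₗ[K] K) (h : pol N T = 0) :
    ∀ k ≤ N, T (X ^ k) = 0 := by
  intro k hk
  have h1 : (pol N T).coeff (N - k) = 0 := by rw [h, coeff_zero]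
  unfold pol at h1
  rw [finsetSum_coeff] at h1
  simp only [coeff_C_mul_X_pow] at h1
  rw [Finset.sum_ite_eq (range (N + 1)) (N - k), if_pos (mem_range.2 (by omega)),
    Nat.sub_sub_self hk] at h1
  rcases mul_eq_zero.1 h1 with h2 | h2
  · exfalso
    rcases mul_eq_zero.1 h2 with h3 | h3
    · apply hf
      have h4 := Nat.choose_mul_factorial_mul_factorial (Nat.sub_le N k)
      rw [← h4, Nat.cast_mul, Nat.cast_mul, h3, zero_mul, zero_mul]
    · exact pow_ne_zero _ (by norm_num) h3
  · exact h2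

lemma pol_dvd [Infinite K] (N J : ℕ) (T : K[X] →ₗ[K] K) (x : K)
    (h : ∀ k, N < k + J → k ≤ N → T ((X - C x) ^ k) = 0) : (X - C x) ^ J ∣ pol N T := by
  have h1 : pol N T = ∑ l ∈ range (N + 1),
      C ((N.choose l : K) * (-1) ^ l * T ((X - C x) ^ (N - l))) * (X - C x) ^ l := by
    refine Polynomial.funext (fun s => ?_)
    rw [eval_pol, eval_finsetSum]
    have e : (X - C s : K[X]) = -C (s - x) + (X - C x) := by rw [C_sub]; ring
    rw [e, add_pow, map_sum]
    refine Finset.sum_congr rfl (fun l _ => ?_)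
    rw [eval_mul, eval_C, eval_pow, eval_sub, eval_X, eval_C]
    have : (-C (s - x)) ^ l * (X - C x) ^ (N - l) * ((N.choose l : ℕ) : K[X]) =
        ((-1) ^ l * (s - x) ^ l * (N.choose l : K)) • (X - C x) ^ (N - l) := by
      rw [smul_eq_C_mul, C_mul, C_mul, C_eq_natCast, C_pow, C_pow, neg_pow, C_neg, C_1]
      ring
    rw [this, map_smul, smul_eq_mul]
    ring
  rw [h1]
  refine Finset.dvd_sum (fun l hl => ?_)
  rw [mem_range] at hl
  rcases Nat.lt_or_ge l J with h2 | h2
  · rw [h (N - l) (by omega) (Nat.sub_le _ _)]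
    simp
  · exact Dvd.dvd.mul_left (pow_dvd_pow _ h2) _

/-- the umbral functional of a sequence -/
noncomputable def umb (β : ℕ → K) : K[X] →ₗ[K] K := lsum (fun k => LinearMap.mulRight K (β k))

lemma umb_C_mul_X_pow (β : ℕ → K) (a : K) (k : ℕ) : umb β (C a * X ^ k) = a * β k := by
  unfold umb
  rw [C_mul_X_pow_eq_monomial, lsum_apply, sum_monomial_index]
  · rfl
  · simp

lemma umb_X_pow (β : ℕ → K) (k : ℕ) : umb β (X ^ k) = β k := by
  have := umb_C_mul_X_pow β 1 k
  rwa [C_1, one_mul, one_mul] at this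

/-- two functionals agreeing on small powers agree on polynomials of small degree -/
lemma ext_deg (T T' : K[X] →ₗ[K] K) (w : ℕ) (h : ∀ k ≤ w, T (X ^ k) = T' (X ^ k)) (f : K[X])
    (hf : f.natDegree ≤ w) : T f = T' f := by
  rw [f.as_sum_range_C_mul_X_pow, map_sum, map_sum]
  refine Finset.sum_congr rfl (fun k hk => ?_)
  rw [mem_range] at hk
  rw [← smul_eq_C_mul, map_smul, map_smul, h k (by omega)]

variable (p : ℕ) [Fact p.Prime] [CharP K p] [Algebra (ZMod p) K]

/-- the Bernoulli numbers in `K` -/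
noncomputable def bet (K : Type) [Field K] (p : ℕ) [Fact p.Prime] [Algebra (ZMod p) K] (k : ℕ) : K :=
  algebraMap (ZMod p) K (Pool.Agent.H332R2.cc p k) * (k.factorial : K)

include p in
lemma bet_shift (hp3 : 3 ≤ p) (f : K[X]) (hf : f.natDegree + 1 ≤ p) :
    umb (bet K p) (taylor 1 f) = umb (bet K p) f + eval 0 (derivative f) := by
  let T : K[X] →ₗ[K] K := (umb (bet K p)).comp (taylor (1 : K) : K[X] →ₗ[K] K[X])
  let T' : K[X] →ₗ[K] K := umb (bet K p) + (leval (0 : K)).comp (derivative (R := K))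
  have h : ∀ k ≤ p - 1, T (X ^ k) = T' (X ^ k) := by
    intro k hk
    simp only [T, T', LinearMap.comp_apply, LinearMap.add_apply, leval_apply]
    rw [taylor_X_pow, C_1, add_pow, map_sum, umb_X_pow]
    have e : ∀ m ∈ range (k + 1), umb (bet K p) (X ^ m * 1 ^ (k - m) * ((k.choose m : ℕ) : K[X])) =
        (k.choose m : K) * bet K p m := by
      intro m _
      rw [one_pow, mul_one, mul_comm, ← C_eq_natCast, umb_C_mul_X_pow]
    rw [Finset.sum_congr rfl e, Finset.sum_range_succ, Nat.choose_self, Nat.cast_one, one_mul,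
      add_comm]
    congr 1
    rcases Nat.lt_or_ge k 2 with h2 | h2
    · interval_cases k
      · simp
      · simp [bet, Pool.Agent.H332R2.cc_zero]
    · have h3 := Pool.Agent.H332R2.cc_rec (p := p) h2 (by omega)
      have h4 : ∑ x ∈ range k, (k.choose x : K) * bet K p x = (k.factorial : K) *
          algebraMap (ZMod p) K (∑ k_1 ∈ range k,
            Pool.Agent.H332R2.cc p k_1 * (((k - k_1).factorial : ℕ) : ZMod p)⁻¹) := by
        rw [map_sum, Finset.mul_sum]
        refine Finset.sum_congr rfl (fun m hm => ?_)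
        rw [mem_range] at hm
        rw [bet, map_mul, map_inv₀, map_natCast]
        have h5 := Nat.choose_mul_factorial_mul_factorial hm.le
        have h6 : ((k - m).factorial : K) ≠ 0 := by
          intro h0
          rw [CharP.cast_eq_zero_iff K p] at h0
          have := (Nat.Prime.dvd_factorial (Fact.out : p.Prime)).mp h0
          omega
        rw [← h5]
        push_cast
        field_simp
      rw [h4, h3, map_zero, mul_zero]
      simp only [derivative_X_pow, eval_mul, eval_C, eval_pow, eval_X]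
      rw [zero_pow (by omega), mul_zero]
  exact ext_deg T T' (p - 1) h f (by omega)

/-- the umbral functional of `w^k B_k` -/
noncomputable def Lw (K : Type) [Field K] (p : ℕ) [Fact p.Prime] [Algebra (ZMod p) K] (w : K) :
    K[X] →ₗ[K] K :=
  (umb (bet K p)).comp (aeval (C w * X : K[X])).toLinearMap

omit [CharP K p] in
lemma Lw_apply (w : K) (f : K[X]) : Lw K p w f = umb (bet K p) (f.comp (C w * X)) := by
  unfold Lw
  rw [LinearMap.comp_apply, AlgHom.toLinearMap_apply, comp_eq_aeval]

omit [CharP K p] in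
lemma Lw_X_pow (w : K) (k : ℕ) : Lw K p w (X ^ k) = w ^ k * bet K p k := by
  rw [Lw_apply, X_pow_comp, mul_pow, ← C_pow, umb_C_mul_X_pow]

lemma Lw_shift (hp3 : 3 ≤ p) (w : K) (f : K[X]) (hf : f.natDegree + 1 ≤ p) :
    Lw K p w (taylor w f) = Lw K p w f + w * eval 0 (derivative f) := by
  rw [Lw_apply, Lw_apply]
  have h1 : (taylor w f).comp (C w * X) = taylor 1 (f.comp (C w * X)) := by
    rw [taylor_apply, taylor_apply, comp_assoc, comp_assoc]
    congr 1
    simp only [add_comp, X_comp, C_comp, mul_comp, C_1]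
    ring
  rw [h1, bet_shift p hp3]
  · congr 1
    rw [derivative_comp]
    simp only [derivative_mul, derivative_C, zero_mul, derivative_X, mul_one, zero_add, eval_mul,
      eval_C, eval_comp, eval_X, mul_zero]
  · have h2 : (f.comp (C w * X)).natDegree ≤ f.natDegree * 1 :=
      natDegree_comp_le.trans (Nat.mul_le_mul_left _
        ((natDegree_C_mul_le w X).trans natDegree_X.le))
    omega

end Pool.Agent.U829.IR
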