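import Mathlib
import Pool.Agent.U829.IR.Umb

set_option autoImplicit false

open Finset Polynomial

namespace Pool.Agent.U829.IR

variable {K : Type} [Field K]

/-- the directions `1, η, …, η^(d-1)` -/
def dirs (η : K) (d : ℕ) : List K := (List.range d).map (fun j => η ^ j)

/-- `∏ (X - z)^2` -/
noncomputable def Psi (S : Finset K) : K[X] := ∏ z ∈ S, (X - C z) ^ 2

lemma natDegree_Psi (S : Finset K) : (Psi S).natDegree = 2 * S.card := by
  unfold Psi
  rw [natDegree_prod_of_monic]
  · simp [mul_comm]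
  · intro z _
    exact (monic_X_sub_C z).pow _

lemma Psi_ne_zero (S : Finset K) : Psi S ≠ 0 :=
  Finset.prod_ne_zero_iff.2 (fun z _ => pow_ne_zero _ (X_sub_C_ne_zero z))

lemma F_zero (F : K[X] →ₗ[K] K) (n w : ℕ) (hvan : ∀ k, n < k → k ≤ w → F (X ^ k) = 0) (k : ℕ)
    (hk : n < k) (G : K[X]) (hG : G.natDegree + k ≤ w) : F (G * X ^ k) = 0 := by
  rw [G.as_sum_range_C_mul_X_pow, Finset.sum_mul, map_sum]
  refine Finset.sum_eq_zero (fun i hi => ?_)
  rw [mem_range] at hi
  rw [mul_assoc, ← pow_add, ← smul_eq_C_mul, map_smul, hvan (i + k) (by omega) (by omega), smul_zero]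

/-- the weighted sum of the umbral functionals -/
noncomputable def FF (K : Type) [Field K] (p : ℕ) [Fact p.Prime] [Algebra (ZMod p) K] (η : K)
    (D : ℕ) (ζ : ℕ → K) : K[X] →ₗ[K] K := ∑ j ∈ range D, ζ j • Lw K p (η ^ j)

lemma FF_X_pow (p : ℕ) [Fact p.Prime] [Algebra (ZMod p) K] (η : K) (D : ℕ) (ζ : ℕ → K) (k : ℕ) :
    FF K p η D ζ (X ^ k) = (∑ j ∈ range D, ζ j * η ^ (k * j)) * bet K p k := by
  unfold FF
  rw [LinearMap.sum_apply, Finset.sum_mul]
  refine Finset.sum_congr rfl (fun j _ => ?_)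
  rw [LinearMap.smul_apply, Lw_X_pow, smul_eq_mul, ← mul_assoc, ← pow_mul, mul_comm j k]

/-- `g ↦ L ((Ψ g) (X + x))` -/
noncomputable def Tr (S : Finset K) (L : K[X] →ₗ[K] K) (x : K) : K[X] →ₗ[K] K :=
  L.comp ((taylor x : K[X] →ₗ[K] K[X]).comp (LinearMap.mulLeft K (Psi S)))

lemma Tr_apply (S : Finset K) (L : K[X] →ₗ[K] K) (x : K) (g : K[X]) :
    Tr S L x g = L (taylor x (Psi S * g)) := rfl

theorem core (p : ℕ) [Fact p.Prime] [CharP K p] [Algebra (ZMod p) K] [Infinite K] (η : K)
    (hη : η ≠ 0) (d : ℕ) (ζ : ℕ → K) (n w N e M : ℕ) (S : Finset K) (hp3 : 3 ≤ p)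
    (hS : ∀ y, InBox M (dirs η d) 0 y → y ∈ S) (hN1 : N + 1 = (M + 1) * e) (hJ : n + d * e ≤ N)
    (hw : N + 2 * S.card ≤ w) (hwp : w + 2 ≤ p)
    (hvan : ∀ k, n < k → k ≤ w → FF K p η d ζ (X ^ k) = 0) :
    ∀ k, 2 ≤ k → k ≤ w → FF K p η d ζ (X ^ k) = 0 := by
  classical
  have hf : ((N.factorial : ℕ) : K) ≠ 0 := by
    intro h
    rw [CharP.cast_eq_zero_iff K p] at h
    have := (Nat.Prime.dvd_factorial (Fact.out : p.Prime)).mp h
    omega
  set F := FF K p η d ζ with hF
  have hdegPsi : ∀ k, (Psi S * X ^ k : K[X]).natDegree ≤ 2 * S.card + k := by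
    intro k
    refine natDegree_mul_le.trans ?_
    rw [natDegree_Psi, natDegree_X_pow]
  have key : pol N (Tr S F 0) = 0 := by
    refine interp hN1 hf (dirs η d) ?_ (d * e) (fun x => pol N (Tr S F x)) 0 ?_ ?_ ?_ ?_ 0
      (InBox_self _ _)
    · intro v hv
      unfold dirs at hv
      obtain ⟨j, _, rfl⟩ := List.mem_map.1 hv
      exact pow_ne_zero _ hη
    · unfold dirs
      rw [List.length_map, List.length_range]
    · intro y _
      exact natDegree_pol _ _
    · intro y _
      refine pol_dvd N (d * e) _ y ?_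
      intro k hk1 hk2
      rw [Tr_apply, taylor_mul]
      have h1 : taylor y ((X - C y) ^ k) = X ^ k := by
        rw [taylor_apply, pow_comp, sub_comp, X_comp, C_comp]
        ring
      rw [h1]
      refine F_zero F n w hvan k (by omega) _ ?_
      rw [natDegree_taylor, natDegree_Psi]
      omega
    · have h1 : (fun x => pol N (Tr S F x)) =
          fun x => ∑ j ∈ range d, ζ j • pol N (Tr S (Lw K p (η ^ j)) x) := by
        funext x
        rw [← pol_sum]
        congr 1
        refine LinearMap.ext (fun g => ?_)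
        rw [Tr_apply, hF, FF, LinearMap.sum_apply, LinearMap.sum_apply]
        rfl
      rw [h1]
      refine Sep_sum (range d) (dirs η d) 0 _ (fun j hj => ?_)
      refine Sep_inv (dirs η d) 0 _ (η ^ j) ?_ ?_
      · unfold dirs
        exact List.mem_map.2 ⟨j, List.mem_range.2 (mem_range.1 hj), rfl⟩
      · intro y hy
        congr 1
        refine pol_congr N _ _ (fun k hk => ?_)
        rw [Tr_apply, Tr_apply, add_comm y, ← taylor_taylor, Lw_shift p hp3]
        · rw [derivative_taylor, taylor_eval, zero_add]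
          have h2 : (X - C y) ^ 2 ∣ Psi S * X ^ k :=
            Dvd.dvd.mul_right (Finset.dvd_prod_of_mem (fun z => (X - C z) ^ 2) (hS y hy)) _
          have h3 : eval y (derivative (Psi S * X ^ k)) = 0 := by
            obtain ⟨q, hq⟩ := h2
            rw [hq, derivative_mul, eval_add, eval_mul, eval_mul]
            simp [derivative_pow]
          rw [h3, mul_zero, add_zero]
        · rw [natDegree_taylor]
          have := hdegPsi k
          omega
  have hall := pol_zero hf _ key
  have h0S : (0 : K) ∈ S := hS 0 (InBox_self _ _)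
  set Q : K[X] := ∏ z ∈ S.erase 0, (X - C z) ^ 2 with hQ
  have hPsi : Psi S = X ^ 2 * Q := by
    unfold Psi
    rw [← Finset.mul_prod_erase S _ h0S, C_0, sub_zero]
  have hQdeg : Q.natDegree + 2 = 2 * S.card := by
    have h1 : Q ≠ 0 := Finset.prod_ne_zero_iff.2 (fun z _ => pow_ne_zero _ (X_sub_C_ne_zero z))
    rw [← natDegree_Psi, hPsi, natDegree_mul (pow_ne_zero _ X_ne_zero) h1, natDegree_X_pow]
    ring
  have hQ0 : Q.coeff 0 ≠ 0 := by
    rw [coeff_zero_eq_eval_zero, hQ, eval_prod]
    refine Finset.prod_ne_zero_iff.2 (fun z hz => ?_)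
    rw [eval_pow, eval_sub, eval_X, eval_C, zero_sub]
    exact pow_ne_zero _ (neg_ne_zero.2 (Finset.ne_of_mem_erase hz))
  have main : ∀ t k, w < k + t → 2 ≤ k → k ≤ w → F (X ^ k) = 0 := by
    intro t
    induction t with
    | zero => intro k h1 _ h2; omega
    | succ t ih =>
      intro k hk1 hk2 hk3
      rcases Nat.lt_or_ge n k with h1 | h1
      · exact hvan k h1 hk3
      · have h2 : F (Psi S * X ^ (k - 2)) = 0 := by
          have := hall (k - 2) (by omega)
          rw [Tr_apply, taylor_zero] at this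
          exact this
        have h3 : Psi S * X ^ (k - 2) = Q * X ^ k := by
          rw [hPsi]
          have : (X : K[X]) ^ k = X ^ 2 * X ^ (k - 2) := by rw [← pow_add]; congr 1; omega
          rw [this]
          ring
        have h4 : Q * X ^ k = Q.coeff 0 • X ^ k + divX Q * X ^ (k + 1) := by
          conv_lhs => rw [← divX_mul_X_add Q]
          rw [smul_eq_C_mul, pow_succ]
          ring
        rw [h3, h4, map_add, map_smul] at h2
        rw [F_zero F k w (fun j hj1 hj2 => ih j (by omega) (by omega) hj2) (k + 1) (by omega)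
          (divX Q) ?_, add_zero, smul_eq_mul] at h2
        · exact (mul_eq_zero.1 h2).resolve_left hQ0
        · rw [natDegree_divX_eq_natDegree_tsub_one]
          omega
  intro k hk1 hk2
  exact main (w + 1) k (by omega) hk1 hk2

end Pool.Agent.U829.IR
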