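import Mathlib
import Pool.Agent.U829.IR.Core

set_option autoImplicit false

open Finset Polynomial

namespace Pool.Agent.U829.IR

variable {K : Type} [Field K]

lemma box_poly {M : ℕ} (η : K) : ∀ (L : List ℕ), L.Nodup → ∀ (x y : K),
    InBox M (L.map (fun j => η ^ j)) x y →
    ∃ P : ℤ[X], (∀ k, 0 ≤ P.coeff k ∧ P.coeff k ≤ M) ∧ (∀ k, k ∉ L → P.coeff k = 0) ∧
      y = x + aeval η P
  | [], _, x, y, h => by
    refine ⟨0, fun k => by simp, fun k _ => by simp, ?_⟩
    change y = x at h
    simp [h]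
  | (j :: L), hL, x, y, h => by
    obtain ⟨i, hi, z, hz, rfl⟩ := h
    rw [List.nodup_cons] at hL
    obtain ⟨P, h1, h2, h3⟩ := box_poly η L hL.2 x z hz
    refine ⟨P + C (i : ℤ) * X ^ j, ?_, ?_, ?_⟩
    · intro k
      rw [coeff_add, coeff_C_mul_X_pow]
      split_ifs with hk
      · subst hk
        rw [h2 k hL.1, zero_add]
        exact ⟨by positivity, by exact_mod_cast hi⟩
      · rw [add_zero]
        exact h1 k
    · intro k hk
      rw [List.mem_cons, not_or] at hk
      rw [coeff_add, coeff_C_mul_X_pow, if_neg hk.1, add_zero]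
      exact h2 k hk.2
    · rw [h3, map_add, map_mul, aeval_C, map_pow, aeval_X]
      simp only [algebraMap_int_eq, eq_intCast, Int.cast_natCast]
      ring

/-- the size of the coefficients of `X^j` modulo the cyclotomic polynomial -/
noncomputable def Acoef (d : ℕ) : ℕ :=
  ∑ j ∈ range d, ∑ k ∈ range (Nat.totient (2 * d)), ((X ^ j %ₘ cyclotomic (2 * d) ℤ).coeff k).natAbs

lemma coeff_bound (d M : ℕ) (P : ℤ[X]) (h1 : ∀ k, 0 ≤ P.coeff k ∧ P.coeff k ≤ M)
    (h2 : ∀ k, k ∉ List.range d → P.coeff k = 0) (k : ℕ) (hk : k < Nat.totient (2 * d)) :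
    |(P %ₘ cyclotomic (2 * d) ℤ).coeff k| ≤ M * Acoef d := by
  have hP : P = ∑ j ∈ range d, P.coeff j • X ^ j := by
    ext m
    rw [finsetSum_coeff]
    simp only [coeff_smul, coeff_X_pow, smul_eq_mul, mul_ite, mul_one, mul_zero]
    rw [Finset.sum_ite_eq (range d) m]
    split_ifs with hm
    · rfl
    · exact h2 m (by simpa using hm)
  have h3 : P %ₘ cyclotomic (2 * d) ℤ =
      ∑ j ∈ range d, P.coeff j • (X ^ j %ₘ cyclotomic (2 * d) ℤ) := by
    conv_lhs => rw [hP]
    have := map_sum (modByMonicHom (cyclotomic (2 * d) ℤ)) (fun j => P.coeff j • X ^ j) (range d)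
    simp only [map_smul, modByMonicHom_apply] at this
    exact this
  rw [h3, finsetSum_coeff]
  refine (Finset.abs_sum_le_sum_abs _ _).trans ?_
  unfold Acoef
  push_cast
  rw [Finset.mul_sum]
  refine Finset.sum_le_sum (fun j _ => ?_)
  rw [coeff_smul, smul_eq_mul, abs_mul, abs_of_nonneg (h1 j).1]
  refine mul_le_mul (h1 j).2 ?_ (abs_nonneg _) (by positivity)
  have := Finset.single_le_sum (f := fun k => |(X ^ j %ₘ cyclotomic (2 * d) ℤ).coeff k|)
    (fun k _ => abs_nonneg _) (mem_range.2 hk)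
  exact this

lemma box_card_phi (d D M : ℕ) (hd : 1 ≤ d) (hD : D ≤ d) (η : K) (hη : IsPrimitiveRoot η (2 * d)) :
    ∃ S : Finset K, S.card ≤ (2 * (M * Acoef d) + 1) ^ Nat.totient (2 * d) ∧
      ∀ y, InBox M (dirs η D) 0 y → y ∈ S := by
  classical
  set φ := Nat.totient (2 * d) with hφ
  refine ⟨(Fintype.piFinset (fun _ : Fin φ =>
    Finset.Icc (-((M * Acoef d : ℕ) : ℤ)) ((M * Acoef d : ℕ) : ℤ))).image
      (fun g => ∑ k : Fin φ, (g k : K) * η ^ (k : ℕ)), ?_, ?_⟩
  · refine Finset.card_image_le.trans ?_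
    rw [Fintype.card_piFinset]
    simp only [Int.card_Icc, prod_const, card_univ, Fintype.card_fin]
    refine Nat.pow_le_pow_left ?_ _
    omega
  · intro y hy
    obtain ⟨P, h1, h2', h3⟩ := box_poly η (List.range D) List.nodup_range 0 y hy
    have h2 : ∀ k, k ∉ List.range d → P.coeff k = 0 := fun k hk =>
      h2' k (fun h => hk (List.mem_range.2 (lt_of_lt_of_le (List.mem_range.1 h) hD)))
    rw [mem_image]
    refine ⟨fun k => (P %ₘ cyclotomic (2 * d) ℤ).coeff k, ?_, ?_⟩
    · rw [Fintype.mem_piFinset]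
      intro k
      rw [Finset.mem_Icc, ← abs_le]
      have := coeff_bound d M P h1 h2 k k.2
      push_cast
      exact this
    · rw [h3, zero_add]
      have hroot : aeval η (cyclotomic (2 * d) ℤ) = 0 := by
        have h4 := hη.isRoot_cyclotomic (by omega)
        rw [aeval_def, eval₂_eq_eval_map, map_cyclotomic]
        exact h4
      rw [← aeval_modByMonic_eq_self_of_root hroot]
      have hdeg : (P %ₘ cyclotomic (2 * d) ℤ).natDegree < φ := by
        have := natDegree_modByMonic_lt P (cyclotomic.monic (2 * d) ℤ) (by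
          intro h
          have h5 := natDegree_cyclotomic (2 * d) ℤ
          rw [h, natDegree_one] at h5
          have := Nat.totient_pos.2 (show 0 < 2 * d by omega)
          omega)
        rwa [natDegree_cyclotomic] at this
      rw [aeval_eq_sum_range' hdeg, Fin.sum_univ_eq_sum_range
        (fun k => (((P %ₘ cyclotomic (2 * d) ℤ).coeff k : ℤ) : K) * η ^ k)]
      refine Finset.sum_congr rfl (fun k _ => ?_)
      rw [zsmul_eq_mul]

lemma box_card_D (D M : ℕ) (hD : 1 ≤ D) (η : K) :
    ∃ S : Finset K, S.card ≤ (M + 1) ^ D ∧ ∀ y, InBox M (dirs η D) 0 y → y ∈ S := by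
  classical
  refine ⟨(Fintype.piFinset (fun _ : Fin D => range (M + 1))).image
      (fun g => ∑ k : Fin D, (g k : K) * η ^ (k : ℕ)), ?_, ?_⟩
  · refine Finset.card_image_le.trans ?_
    rw [Fintype.card_piFinset]
    simp
  · intro y hy
    obtain ⟨P, h1, h2, h3⟩ := box_poly η (List.range D) List.nodup_range 0 y hy
    rw [mem_image]
    refine ⟨fun k => (P.coeff k).toNat, ?_, ?_⟩
    · rw [Fintype.mem_piFinset]
      intro k
      rw [mem_range]
      have := h1 k
      omega
    · rw [h3, zero_add]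
      have hdeg : P.natDegree < D := by
        by_cases hP : P = 0
        · rw [hP, natDegree_zero]; omega
        by_contra hcon
        have := h2 P.natDegree (by rw [List.mem_range]; exact hcon)
        exact hP (leadingCoeff_eq_zero.1 this)
      rw [aeval_eq_sum_range' hdeg, Fin.sum_univ_eq_sum_range
        (fun k => (((P.coeff k).toNat : ℕ) : K) * η ^ k)]
      refine Finset.sum_congr rfl (fun k _ => ?_)
      rw [zsmul_eq_mul]
      congr 1
      have h4 : (((P.coeff k).toNat : ℕ) : ℤ) = P.coeff k := Int.toNat_of_nonneg (h1 k).1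
      rw [← Int.cast_natCast, h4]

/-- the size of the box in terms of `min D φ(2d)` -/
lemma box_card (d D M q : ℕ) (hd : 1 ≤ d) (hD1 : 1 ≤ D) (hD : D ≤ d) (η : K)
    (hη : IsPrimitiveRoot η (2 * d)) (hq : 1 ≤ q) (hM : M ≤ d * q) :
    ∃ S : Finset K, S.card ≤ ((2 * Acoef d * d + d + 1) * q) ^ min D (Nat.totient (2 * d)) ∧
      ∀ y, InBox M (dirs η D) 0 y → y ∈ S := by
  rcases le_total D (Nat.totient (2 * d)) with h | h
  · rw [min_eq_left h]
    obtain ⟨S, h1, h2⟩ := box_card_D D M hD1 η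
    refine ⟨S, h1.trans (Nat.pow_le_pow_left ?_ _), h2⟩
    nlinarith [Nat.zero_le (Acoef d * d * q)]
  · rw [min_eq_right h]
    obtain ⟨S, h1, h2⟩ := box_card_phi d D M hd hD η hη
    refine ⟨S, h1.trans (Nat.pow_le_pow_left ?_ _), h2⟩
    have h6 : M * Acoef d ≤ d * q * Acoef d := Nat.mul_le_mul_right _ hM
    nlinarith

end Pool.Agent.U829.IR
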