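import Mathlib
import Pool.Agent.H582R5.RP.A1
import Pool.Agent.H582R5.RP.A2
import Pool.Agent.H582R5.RP.C
import Pool.Agent.H582R5.RP.Main
import Pool.Agent.U829.IR.Box

set_option autoImplicit false

open Finset Polynomial

namespace Pool.Agent.U829.IR

/-- a vector of weights supported on the first `D` directions -/
lemma exists_weights {K : Type} [Field K] (d D : ℕ) (H : Finset (ZMod d))
    (hD : D + H.card = d + 1) (hD' : D ≤ d) (f : ZMod d → ℕ → K) :
    ∃ lam : H → K, lam ≠ 0 ∧ ∀ j, D ≤ j → j < d → ∑ c : H, lam c * f c j = 0 := by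
  classical
  let T : (H → K) →ₗ[K] (Fin (d - D) → K) :=
    LinearMap.pi (fun i => ∑ c : H, f c (D + i) • LinearMap.proj c)
  have h1 : Module.finrank K (Fin (d - D) → K) < Module.finrank K (H → K) := by
    rw [Module.finrank_fin_fun, Module.finrank_fintype_fun_eq_card, Fintype.card_coe]
    omega
  obtain ⟨lam, h2, h3⟩ := Submodule.exists_mem_ne_zero_of_ne_bot
    (LinearMap.ker_ne_bot_of_finrank_lt (f := T) h1)
  refine ⟨lam, h3, fun j hj1 hj2 => ?_⟩
  have h4 := congrFun (LinearMap.mem_ker.1 h2) ⟨j - D, by omega⟩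
  simp only [T, LinearMap.pi_apply, LinearMap.sum_apply, LinearMap.smul_apply,
    LinearMap.proj_apply, smul_eq_mul, Pi.zero_apply] at h4
  rw [← h4]
  refine Finset.sum_congr rfl (fun c _ => ?_)
  rw [mul_comm]
  congr 2
  omega

/-- the parametric form, over a given field -/
theorem paramK (p : ℕ) [Fact p.Prime] {K : Type} [Field K] [CharP K p] [Infinite K]
    [Algebra (ZMod p) K] (d D n w N e M q : ℕ) (η : K) (hη : IsPrimitiveRoot η (2 * d))
    (H : Finset (ZMod d)) (a r : ℕ)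
    (hd : 1 ≤ d) (ha : 1 ≤ a) (hD1 : 1 ≤ D) (hD : D + H.card = d + 1) (hD' : D ≤ d)
    (hn : n = 2 * a) (h2d : 2 * d < p) (hq : 1 ≤ q) (hMq : M ≤ d * q)
    (hN1 : N + 1 = (M + 1) * e) (hJ : n + D * e ≤ N)
    (hw : N + 2 * ((2 * Acoef d * d + d + 1) * q) ^ min D (Nat.totient (2 * d)) ≤ w)
    (hw2 : w ≤ 2 * (a + r) + 1) (hwp : w + 2 ≤ p)
    (hirr : ∀ m : ℕ, a < m → m ≤ a + r → (m : ZMod d) ∈ H →
      (p : ℤ) ∣ (_root_.bernoulli (2 * m)).num) :
    ∃ c ∈ H, ∀ m : ℕ, 1 ≤ m → 2 * m ≤ w → (m : ZMod d) = c →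
      (p : ℤ) ∣ (_root_.bernoulli (2 * m)).num := by
  classical
  have hp3 : 3 ≤ p := by omega
  have hdne : NeZero d := ⟨by omega⟩
  have hη0 : η ≠ 0 := hη.ne_zero (by omega)
  obtain ⟨S, hS1, hS2⟩ := box_card d D M q hd hD1 hD' η hη hq hMq
  have hcl : ∀ (c : ZMod d) (m : ℕ), d ∣ (-c).val + m ↔ (m : ZMod d) = c := by
    intro c m
    rw [← ZMod.natCast_eq_zero_iff, Nat.cast_add, ZMod.natCast_zmod_val]
    constructor
    · intro h
      linear_combination h
    · intro h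
      rw [h]
      ring
  have hsum : ∀ k : ℕ, ∑ j ∈ range d, η ^ (2 * k * j) = if d ∣ k then (d : K) else 0 := by
    intro k
    have hω : IsPrimitiveRoot (η ^ 2) d := hη.pow (by omega) rfl
    have h2 : ∀ j, η ^ (2 * k * j) = ((η ^ 2) ^ k) ^ j := by
      intro j
      rw [← pow_mul, ← pow_mul, mul_assoc]
    simp only [h2]
    split_ifs with hk
    · rw [hω.pow_eq_one_iff_dvd k |>.2 hk]
      simp
    · have h3 : (η ^ 2) ^ k ≠ 1 := fun h => hk ((hω.pow_eq_one_iff_dvd k).1 h)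
      have h4 := mul_geom_sum ((η ^ 2) ^ k) d
      have h5 : ((η ^ 2) ^ k) ^ d = 1 := by
        rw [← pow_mul, mul_comm k d, pow_mul, hω.pow_eq_one, one_pow]
      rw [h5, sub_self] at h4
      exact (mul_eq_zero.1 h4).resolve_left (sub_ne_zero.2 h3)
  obtain ⟨lam, hlam, hlam0⟩ := exists_weights (K := K) d D H hD hD'
    (fun c j => η ^ (2 * (-c).val * j))
  set ζ : ℕ → K := fun j => ∑ c : H, lam c * η ^ (2 * (-(c : ZMod d)).val * j) with hζ
  have hFF : ∀ m : ℕ, FF K p η D ζ (X ^ (2 * m)) =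
      (∑ c : H, if (m : ZMod d) = (c : ZMod d) then lam c * (d : K) else 0) * bet K p (2 * m) := by
    intro m
    rw [FF_X_pow]
    congr 1
    have e1 : ∑ j ∈ range D, ζ j * η ^ (2 * m * j) = ∑ j ∈ range d, ζ j * η ^ (2 * m * j) := by
      refine Finset.sum_subset (fun j hj => mem_range.2 (lt_of_lt_of_le (mem_range.1 hj) hD'))
        (fun j hj1 hj2 => ?_)
      rw [mem_range] at hj1 hj2
      have : ζ j = 0 := hlam0 j (by omega) hj1
      rw [this, zero_mul]
    rw [e1]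
    simp only [hζ, Finset.sum_mul]
    rw [Finset.sum_comm]
    refine Finset.sum_congr rfl (fun c _ => ?_)
    have e2 : ∑ j ∈ range d, η ^ (2 * ((-(c : ZMod d)).val + m) * j) =
        if (m : ZMod d) = (c : ZMod d) then (d : K) else 0 := by
      rw [hsum]
      simp only [hcl]
    calc ∑ j ∈ range d, lam c * η ^ (2 * (-(c : ZMod d)).val * j) * η ^ (2 * m * j)
        = lam c * ∑ j ∈ range d, η ^ (2 * ((-(c : ZMod d)).val + m) * j) := by
          rw [Finset.mul_sum]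
          refine Finset.sum_congr rfl (fun j _ => ?_)
          rw [mul_assoc, ← pow_add]
          congr 2
          ring
      _ = _ := by
          rw [e2]
          split_ifs <;> simp
  have hvan : ∀ k, n < k → k ≤ w → FF K p η D ζ (X ^ k) = 0 := by
    intro k hk1 hk2
    rcases Nat.even_or_odd' k with ⟨m, hm | hm⟩
    · subst hm
      rw [hFF]
      by_cases hdv : (m : ZMod d) ∈ H
      · have hz : Pool.Agent.H332R2.cc p (2 * m) = 0 := by
          rw [Pool.Agent.H332R2.cc_eq_zero_iff (by omega) hp3]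
          exact hirr m (by omega) (by omega) hdv
        rw [bet, hz, map_zero, zero_mul, mul_zero]
      · rw [Finset.sum_eq_zero, zero_mul]
        intro c _
        rw [if_neg]
        intro h
        exact hdv (h ▸ c.2)
    · subst hm
      have hb : _root_.bernoulli (2 * m + 1) = 0 := bernoulli_eq_zero_of_odd ⟨m, rfl⟩ (by omega)
      rw [FF_X_pow, bet]
      unfold Pool.Agent.H332R2.cc
      rw [hb]
      simp
  have hcore := core (K := K) p η hη0 D ζ n w N e M S hp3 hS2 hN1 hJ (by omega) hwp hvan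
  obtain ⟨c, hc⟩ : ∃ c, lam c ≠ 0 := by
    by_contra hcon
    push Not at hcon
    exact hlam (funext hcon)
  refine ⟨c, c.2, fun m hm1 hm2 hm3 => ?_⟩
  have h1 := hcore (2 * m) (by omega) hm2
  rw [hFF] at h1
  have hs : (∑ c' : H, if (m : ZMod d) = (c' : ZMod d) then lam c' * (d : K) else 0) =
      lam c * (d : K) := by
    rw [Finset.sum_eq_single c]
    · rw [if_pos hm3]
    · intro c' _ hc'
      rw [if_neg]
      intro h
      exact hc' (Subtype.ext (h.symm.trans hm3))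
    · intro h
      exact absurd (mem_univ c) h
  rw [hs] at h1
  rw [← Pool.Agent.H332R2.cc_eq_zero_iff (by omega) hp3]
  rcases mul_eq_zero.1 h1 with h2 | h2
  · exfalso
    rcases mul_eq_zero.1 h2 with h3 | h3
    · exact hc h3
    · rw [CharP.cast_eq_zero_iff K p] at h3
      have := Nat.le_of_dvd (by omega) h3
      omega
  · rw [bet] at h2
    rcases mul_eq_zero.1 h2 with h3 | h3
    · exact (map_eq_zero _).1 h3
    · exfalso
      rw [CharP.cast_eq_zero_iff K p] at h3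
      have := (Nat.Prime.dvd_factorial (Fact.out : p.Prime)).mp h3
      omega

/-- the parametric form -/
theorem param (p : ℕ) [Fact p.Prime] (d D n w N e M q : ℕ) (H : Finset (ZMod d)) (a r : ℕ)
    (hd : 1 ≤ d) (ha : 1 ≤ a) (hD1 : 1 ≤ D) (hD : D + H.card = d + 1) (hD' : D ≤ d)
    (hn : n = 2 * a) (h2d : 2 * d < p) (hq : 1 ≤ q) (hMq : M ≤ d * q)
    (hN1 : N + 1 = (M + 1) * e) (hJ : n + D * e ≤ N)
    (hw : N + 2 * ((2 * Acoef d * d + d + 1) * q) ^ min D (Nat.totient (2 * d)) ≤ w)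
    (hw2 : w ≤ 2 * (a + r) + 1) (hwp : w + 2 ≤ p)
    (hirr : ∀ m : ℕ, a < m → m ≤ a + r → (m : ZMod d) ∈ H →
      (p : ℤ) ∣ (_root_.bernoulli (2 * m)).num) :
    ∃ c ∈ H, ∀ m : ℕ, 1 ≤ m → 2 * m ≤ w → (m : ZMod d) = c →
      (p : ℤ) ∣ (_root_.bernoulli (2 * m)).num := by
  have h1 : CharP (AlgebraicClosure (ZMod p)) p :=
    charP_of_injective_algebraMap (algebraMap (ZMod p) (AlgebraicClosure (ZMod p))).injective p
  have h2 : NeZero ((2 * d : ℕ) : AlgebraicClosure (ZMod p)) := ⟨by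
    intro h
    rw [CharP.cast_eq_zero_iff (AlgebraicClosure (ZMod p)) p] at h
    have := Nat.le_of_dvd (by omega) h
    omega⟩
  obtain ⟨η, hη⟩ := HasEnoughRootsOfUnity.exists_primitiveRoot (AlgebraicClosure (ZMod p)) (2 * d)
  exact paramK p d D n w N e M q η hη H a r hd ha hD1 hD hD' hn h2d hq hMq hN1 hJ hw hw2 hwp hirr

/-- the least `q` with `n ≤ q^(φ+1)` -/
lemma exists_q (n φ : ℕ) (hn : 1 ≤ n) :
    ∃ q : ℕ, 1 ≤ q ∧ n ≤ q ^ (φ + 1) ∧ q ^ (φ + 1) ≤ 2 ^ (φ + 1) * n := by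
  classical
  have hex : ∃ q : ℕ, n ≤ q ^ (φ + 1) := ⟨n, Nat.le_self_pow (by omega) n⟩
  refine ⟨Nat.find hex, ?_, Nat.find_spec hex, ?_⟩
  · by_contra h
    have h0 : Nat.find hex = 0 := by omega
    have := Nat.find_spec hex
    rw [h0, zero_pow (by omega)] at this
    omega
  · set q := Nat.find hex with hq
    rcases Nat.lt_or_ge q 2 with h | h
    · have h1 : q ^ (φ + 1) ≤ 1 ^ (φ + 1) := Nat.pow_le_pow_left (by omega) _
      rw [one_pow] at h1
      have h2 : 1 ≤ 2 ^ (φ + 1) := Nat.one_le_two_pow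
      nlinarith
    · have h1 : (q - 1) ^ (φ + 1) < n := by
        have := Nat.find_min hex (m := q - 1) (by omega)
        omega
      calc q ^ (φ + 1) ≤ (2 * (q - 1)) ^ (φ + 1) := Nat.pow_le_pow_left (by omega) _
        _ = 2 ^ (φ + 1) * (q - 1) ^ (φ + 1) := mul_pow _ _ _
        _ ≤ 2 ^ (φ + 1) * n := Nat.mul_le_mul_left _ h1.le

/-- the threshold below which the classical result is used -/
def R0 (d : ℕ) : ℕ := 2 ^ d * (3 * 2 ^ d + 1) + d ^ Nat.totient (2 * d) + 2 * d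

/-- the constant of the parameter choice -/
noncomputable def C1 (d δ : ℕ) : ℕ :=
  1 + 2 * d + 2 * (2 * Acoef d * d + d + 1) ^ δ

/-- the constant -/
noncomputable def CC (d δ : ℕ) : ℕ := C1 d δ ^ (δ + 1) * 2 ^ (δ * (δ + 2)) + R0 d ^ (δ + 1)

theorem main_nat (d : ℕ) (hd : 1 ≤ d) (H : Finset (ZMod d)) (hH : H.Nonempty) (p : ℕ)
    (hp : p.Prime) (a r : ℕ) (ha : 1 ≤ a) (δ : ℕ)
    (hδ : δ = min (d + 1 - H.card) (Nat.totient (2 * d)))
    (hr : CC d δ * a ^ δ ≤ r ^ (δ + 1)) (hpr : 2 * (a + r) + 3 ≤ p) :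
    ∃ m : ℕ, a < m ∧ m ≤ a + r ∧ (m : ZMod d) ∈ H ∧
      ¬ ((p : ℤ) ∣ (_root_.bernoulli (2 * m)).num) := by
  classical
  have hpf : Fact p.Prime := ⟨hp⟩
  have hdne : NeZero d := ⟨by omega⟩
  have hHc : H.card ≤ d := by
    have := Finset.card_le_univ H
    rwa [ZMod.card] at this
  have hH1 : 1 ≤ H.card := hH.card_pos
  set φ := Nat.totient (2 * d) with hφ
  have hφ1 : 1 ≤ φ := Nat.totient_pos.2 (by omega)
  obtain ⟨D, hD⟩ : ∃ D, D + H.card = d + 1 := ⟨d + 1 - H.card, by omega⟩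
  have hD1 : 1 ≤ D := by omega
  have hDd : D ≤ d := by omega
  have hδ' : δ = min D φ := by rw [hδ]; congr 1; omega
  have hδ1 : 1 ≤ δ := by rw [hδ']; exact le_min hD1 hφ1
  have haδ : 1 ≤ a ^ δ := Nat.one_le_pow _ _ ha
  have hr0 : R0 d ≤ r := by
    have h1 : R0 d ^ (δ + 1) ≤ r ^ (δ + 1) := by
      refine le_trans ?_ hr
      unfold CC
      exact (Nat.le_add_left _ _).trans (Nat.le_mul_of_pos_right _ haδ)
    exact (Nat.pow_le_pow_iff_left (by omega)).1 h1
  have h2d1 : 1 ≤ 2 ^ d := Nat.one_le_two_pow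
  have hR : 2 ^ d * (3 * 2 ^ d + 1) + d ^ φ + 2 * d ≤ r := hr0
  have hpd : d ^ φ < p := by omega
  have hcast : ∀ (m : ℕ) (c : ZMod d), (m : ℤ) ≡ (c.val : ℤ) [ZMOD d] → (m : ZMod d) = c := by
    intro m c h
    have h1 : m ≡ c.val [MOD d] := Int.natCast_modEq_iff.1 h
    rw [← ZMod.natCast_eq_natCast_iff] at h1
    rw [h1, ZMod.natCast_zmod_val]
  rcases Nat.lt_or_ge (2 * a) (3 * 2 ^ d) with hsmall | hbig
  · obtain ⟨c, hc⟩ := hH
    have hN : 2 ^ d * (2 * a + 1) < p := by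
      have : 2 ^ d * (2 * a + 1) ≤ 2 ^ d * (3 * 2 ^ d + 1) := Nat.mul_le_mul_left _ (by omega)
      omega
    obtain ⟨m, h1, h2, h3, h4⟩ := Pool.Agent.H582R5.RP.main_of Pool.Agent.H582R5.RP.a1
      Pool.Agent.H582R5.RP.a2 Pool.Agent.H582R5.RP.c p d hp hd hpd a ha hN (c.val : ℤ)
    refine ⟨m, h2, ?_, by rw [hcast m c h1]; exact hc, h4⟩
    have : 2 ^ d * (2 * a + 1) ≤ 2 ^ d * (3 * 2 ^ d + 1) := Nat.mul_le_mul_left _ (by omega)
    omega
  · by_contra hcon
    push Not at hcon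
    have hN : 2 ^ d * (2 * 1 + 1) < p := by nlinarith
    obtain ⟨q, hq1, hq2, hq3⟩ := exists_q (2 * a) δ (by omega)
    set n := 2 * a with hn
    set e := (n + q) / q with he
    have hqe1 : n + 1 ≤ q * e := by
      have := Nat.lt_mul_div_succ (n + q) (by omega : 0 < q)
      have h5 : q * ((n + q) / q + 1) = q * e + q := by rw [← he]; ring
      omega
    have hqe2 : q * e ≤ n + q := Nat.mul_div_le _ _
    have heq : e ≤ 2 * q ^ δ := by
      have h5 : q * e ≤ q * (q ^ δ + 1) := by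
        calc q * e ≤ n + q := hqe2
          _ ≤ q ^ (δ + 1) + q := by omega
          _ = q * (q ^ δ + 1) := by ring
      have h6 : e ≤ q ^ δ + 1 := Nat.le_of_mul_le_mul_left h5 (by omega)
      have h7 : 1 ≤ q ^ δ := Nat.one_le_pow _ _ hq1
      omega
    have hqδ : q ≤ q ^ δ := Nat.le_self_pow (by omega) q
    obtain ⟨M, hM⟩ : ∃ M, M + 1 = D + q := ⟨D + q - 1, by omega⟩
    have he1 : 1 ≤ e := by
      rcases Nat.eq_zero_or_pos e with h | h
      · rw [h] at hqe1; omega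
      · exact h
    have hMe : 1 ≤ (M + 1) * e := Nat.mul_pos (by omega) he1
    obtain ⟨N, hNN⟩ : ∃ N, N + 1 = (M + 1) * e := ⟨(M + 1) * e - 1, by omega⟩
    have hNN' : N + 1 = D * e + q * e := by rw [hNN, hM]; ring
    have hMq : M ≤ d * q := by
      obtain ⟨d', rfl⟩ : ∃ d', d = d' + 1 := ⟨d - 1, by omega⟩
      obtain ⟨q', rfl⟩ : ∃ q', q = q' + 1 := ⟨q - 1, by omega⟩
      nlinarith
    set T := ((2 * Acoef d * d + d + 1) * q) ^ min D φ with hT
    have hTb : T = (2 * Acoef d * d + d + 1) ^ δ * q ^ δ := by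
      rw [hT, ← hδ', mul_pow]
    have hkey : C1 d δ * q ^ δ ≤ r := by
      have h5 : (C1 d δ * q ^ δ) ^ (δ + 1) ≤ r ^ (δ + 1) := by
        refine le_trans ?_ hr
        calc (C1 d δ * q ^ δ) ^ (δ + 1) = C1 d δ ^ (δ + 1) * (q ^ (δ + 1)) ^ δ := by
              rw [mul_pow, ← pow_mul, ← pow_mul, mul_comm δ (δ + 1)]
          _ ≤ C1 d δ ^ (δ + 1) * (2 ^ (δ + 1) * n) ^ δ :=
              Nat.mul_le_mul_left _ (Nat.pow_le_pow_left hq3 _)
          _ = C1 d δ ^ (δ + 1) * 2 ^ (δ * (δ + 2)) * a ^ δ := by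
              rw [hn, show 2 ^ (δ + 1) * (2 * a) = 2 ^ (δ + 2) * a by ring, mul_pow, ← pow_mul,
                mul_comm (δ + 2) δ, mul_assoc]
          _ ≤ CC d δ * a ^ δ := by
              refine Nat.mul_le_mul_right _ ?_
              unfold CC
              exact Nat.le_add_right _ _
      exact (Nat.pow_le_pow_iff_left (by omega)).1 h5
    have hC1 : C1 d δ * q ^ δ = q ^ δ + 2 * d * q ^ δ +
        2 * ((2 * Acoef d * d + d + 1) ^ δ * q ^ δ) := by
      unfold C1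
      ring
    have hde : D * e ≤ 2 * d * q ^ δ := by
      calc D * e ≤ d * (2 * q ^ δ) := Nat.mul_le_mul hDd heq
        _ = 2 * d * q ^ δ := by ring
    have hw : N + 2 * T ≤ 2 * (a + r) + 1 := by omega
    obtain ⟨c, hc, hall⟩ := param p d D n (N + 2 * T) N e M q H a r hd ha hD1 hD hDd hn (by omega)
      hq1 hMq hNN (by omega) le_rfl hw (by omega) (fun m hm1 hm2 hm3 => hcon m hm1 hm2 hm3)
    obtain ⟨m0, h1, h2, h3, h4⟩ := Pool.Agent.H582R5.RP.main_of Pool.Agent.H582R5.RP.a1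
      Pool.Agent.H582R5.RP.a2 Pool.Agent.H582R5.RP.c p d hp hd hpd 1 le_rfl hN (c.val : ℤ)
    exact h4 (hall m0 (by omega) (by omega) (hcast m0 c h1))

end Pool.Agent.U829.IR
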